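import Pool.Agent.TH466.QG.Spread

/-!
Spreading out, without extension of the field.
-/

set_option autoImplicit false

namespace Pool.Agent.J4.H14.RP

open Pool.Agent.TH466.QG

theorem spread1 {k L : Type} [Field k] [Field L] [Algebra k L] {σ : Type}
    {x : σ → L} (hx : IntermediateField.adjoin k (Set.range x) = ⊤) {Θ : Set L}
    (hΘ : Θ.Finite) : ∃ H : MvPolynomial σ k, MvPolynomial.aeval x H ≠ 0 ∧
      ∀ (E : Type) [Field E] [Algebra k E] (z : σ → E),
        (∀ G : MvPolynomial σ k, MvPolynomial.aeval x G = 0 → MvPolynomial.aeval z G = 0) →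
        MvPolynomial.aeval z H ≠ 0 →
        ∃ S : Sp k L E, (∀ i, S.T (x i) (z i)) ∧ ∀ ϑ ∈ Θ, ∃ t, S.T ϑ t := by
  classical
  obtain ⟨H, hH, hG⟩ := exists_den hx hΘ
  refine ⟨H, hH, fun E _ _ z hz hzH => ?_⟩
  let α : graph k x z →ₐ[k] L := (AlgHom.fst k L E).comp (graph k x z).val
  let β : graph k x z →ₐ[k] E := (AlgHom.snd k L E).comp (graph k x z).val
  have hker : ∀ b, α b = 0 → β b = 0 := by
    rintro ⟨⟨a, a'⟩, G, H', h1, h2, h3, h4⟩ h0
    change a = 0 at h0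
    change a' = 0
    simp only at h3 h4
    rw [h0, zero_mul] at h3
    rw [hz G h3.symm] at h4
    exact (mul_eq_zero.1 h4).resolve_right h2
  refine ⟨Sp.ofHom α β hker, fun i => ?_, fun ϑ hϑ => ?_⟩
  · exact ⟨⟨(x i, z i), MvPolynomial.X i, 1, by rw [map_one]; exact one_ne_zero, by
      rw [map_one]; exact one_ne_zero, by simp, by simp⟩, rfl, rfl⟩
  · obtain ⟨G, hG'⟩ := hG ϑ hϑ
    exact ⟨MvPolynomial.aeval z G / MvPolynomial.aeval z H,
      ⟨⟨(ϑ, MvPolynomial.aeval z G / MvPolynomial.aeval z H), G, H, hH, hzH, hG',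
        div_mul_cancel₀ _ hzH⟩, rfl, rfl⟩⟩

end Pool.Agent.J4.H14.RP
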