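import Pool.Agent.J4.H14.RP.Defs
import Pool.Agent.J4.H14.RP.Spread1
import Pool.Agent.N95.GP.Core
import Pool.Agent.N111.GG.SP

/-!
Linear degree bounds for the curves in the varieties with morphisms to ramified pairs.
-/

set_option autoImplicit false
set_option linter.unusedSectionVars false
set_option linter.overlappingInstances false

open FF IntermediateField

namespace Pool.Agent.J4.H14.RP

open Pool.Agent.TH466.QG Pool.Agent.N111.FT Pool.Agent.N111.GI Pool.Agent.W603.LV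
open Pool.Agent.N126.RC (curve_cover generic_closure general_coverW alg_coords)
open Pool.Agent.W602.GT (val coords IsForm LogGeneralType GeneralType)
open Pool.Agent.W603.PV (pht pht_le pord pord_le exists_pord hgt_algebraic)
open Pool.Agent.Y216 (OnVar CurveBound)
open Pool.Agent.Y221.PB (alg_hgt)
open Pool.Agent.TH145.GK (ord_ge)

section

variable {k K : Type} [Field k] [Field K] [IsAlgClosed K] [CharZero K] [Algebra k K]

/-- constant maps have degree `0` -/
theorem pht_const {E : Type} [Field E] [Algebra K E] [IsFF K E] {n : ℕ} {x : Fin (n + 1) → E}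
    {c : Fin (n + 1)} (hc : x c = 1) (h : ∀ j, x j ∈ Set.range (algebraMap K E)) :
    pht K x ≤ 0 := by
  refine (pht_le (k := K) x (l := c) (by rw [hc]; exact one_ne_zero)).trans ?_
  refine Finset.sum_nonpos fun j _ => ?_
  obtain ⟨a, ha⟩ := h j
  rw [hc, div_one, ← ha, hgt_algebraic (isAlgebraic_algebraMap a)]

/-- The curves in a ramified pair. -/
theorem curve_X (X : RamifiedPair k K) : ∃ Bd : ℕ, ∀ (E : Type) [Field E] [Algebra K E] [IsFF K E]
    (S : Finset (Place K E)) (z : Fin (X.n + 1) ⊕ X.W → E), X.Point z →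
    (∀ a ∈ X.boundary, ∀ P ∉ S, P.ord (MvPolynomial.aeval (fun j => z (Sum.inl j)) (X.F a)) ≤
      X.d a * pord P (fun j => z (Sum.inl j))) →
    pht K (fun j => z (Sum.inl j)) ≤ Bd * max (canDeg K E + S.card) 0 := by
  have hτ : 0 < X.total - 2 * X.m := sub_pos.2 X.large
  obtain ⟨Bd, hBd⟩ := exists_nat_ge (1 / (X.total - 2 * X.m))
  have hBd1 : (1 : ℚ) ≤ Bd * (X.total - 2 * X.m) := by
    rwa [div_le_iff₀ hτ] at hBd
  refine ⟨Bd, fun E _ _ _ S z hz hbd => ?_⟩
  obtain ⟨⟨c, hc⟩, hz⟩ := hz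
  have hm : (0 : ℤ) ≤ Bd * max (canDeg K E + S.card) 0 :=
    mul_nonneg (Nat.cast_nonneg _) (le_max_right _ _)
  by_cases hnc : ∃ v, z v ∉ Set.range (algebraMap K E)
  · have h1 := curve_cover X.C X.V X.V_form X.V_dim (generic_closure X.generic) X.e X.G X.G_form
      X.finite X.lies_over (fun a ha hq => X.ramified a ha hq) z c hc hz hnc S
      (fun P hP a ha hq => hbd a ⟨ha, hq⟩ P hP)
    have h2 : (∑ a ∈ X.C, ((X.d a : ℚ) + 1) + ∑ a ∈ X.Cᶜ, (X.d a : ℚ) * (1 - 1 / X.q a) -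
        2 * X.m) = X.total - 2 * X.m := rfl
    rw [h2] at h1
    have h0 : (0 : ℤ) ≤ pht K (fun j => z (Sum.inl j)) := by
      have hc0 : (fun j => z (Sum.inl j)) c ≠ 0 := by
        change z (Sum.inl c) ≠ 0
        rw [hc]
        exact one_ne_zero
      exact (hgt_nonneg _).trans (Pool.Agent.W603.CX.hgt_le_pht (k := K) _ hc0 hc0)
    have h3 : ((pht K (fun j => z (Sum.inl j)) : ℤ) : ℚ) ≤
        ((Bd * max (canDeg K E + S.card) 0 : ℤ) : ℚ) := by
      have h4 : ((canDeg K E : ℤ) : ℚ) + S.card ≤ ((max (canDeg K E + S.card) 0 : ℤ) : ℚ) := by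
        exact_mod_cast le_max_left (canDeg K E + (S.card : ℤ)) 0
      have h5 : (0 : ℚ) ≤ ((pht K (fun j => z (Sum.inl j)) : ℤ) : ℚ) := by exact_mod_cast h0
      have h6 := mul_le_mul_of_nonneg_left (h1.trans h4) (Nat.cast_nonneg (α := ℚ) Bd)
      have h7 := mul_le_mul_of_nonneg_right hBd1 h5
      push_cast at h6 ⊢
      nlinarith
    exact_mod_cast h3
  · push Not at hnc
    exact (pht_const (c := c) hc fun j => hnc _).trans hm

end

section

variable {k K L : Type} [Field k] [Field K] [IsAlgClosed K] [CharZero K] [Algebra k K] [Field L]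
  [Algebra K L] {N : ℕ} {u : Fin (N + 1) → L} {B : MvPolynomial (Fin (N + 1)) K} {b : ℕ}

/-- the order of the value of a form -/
theorem form_ord {E : Type} [Field E] [Algebra K E] (P : Place K E) {M d : ℕ}
    {F : MvPolynomial (Fin (M + 1)) K} (hF : F.IsHomogeneous d) {x : Fin (M + 1) → E} (hx : x ≠ 0)
    (h0 : MvPolynomial.aeval x F ≠ 0) : d * pord P x ≤ P.ord (MvPolynomial.aeval x F) := by
  have h1 := ord_ge P (hF.map (algebraMap K E)) (g := 0) (fun u => by
    rw [MvPolynomial.coeff_map, neg_zero]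
    exact Ge.const _) hx (by
      rw [MvPolynomial.eval_map]
      exact h0)
  rw [MvPolynomial.eval_map] at h1
  have h2 : MvPolynomial.aeval x F = MvPolynomial.eval₂ (algebraMap K E) x F := rfl
  rw [← h2] at h1
  linarith

/-- values of forms at scaled points -/
theorem aeval_div' {E : Type} [Field E] [Algebra K E] {M d : ℕ} {F : MvPolynomial (Fin (M + 1)) K}
    (hF : F.IsHomogeneous d) {x : Fin (M + 1) → E} {t : E} (ht : t ≠ 0) :
    MvPolynomial.aeval x F = t ^ d * MvPolynomial.aeval (fun i => x i / t) F := by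
  have h1 := Pool.Agent.W602.GT.val_smul hF t (fun i => x i / t)
  have h2 : (fun i => t * (x i / t)) = x := by
    funext i
    field_simp
  rw [h2] at h1
  exact h1

/-- The conditions at the boundary for the specializations. -/
theorem spec_ord (hB : B.IsHomogeneous b) {i1 : Fin (N + 1)} (hi1 : u i1 ≠ 0)
    {n d : ℕ} {F : MvPolynomial (Fin (n + 1)) K} {x : Fin (n + 1) → L}
    (hF0 : MvPolynomial.aeval x F ≠ 0)
    (hreg : ∀ j, RegularOn u B b (x j ^ d / MvPolynomial.aeval x F))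
    {E : Type} [Field E] [Algebra K E] (S : Sp K L E) {f : Fin (N + 1) → E} (hf1 : f i1 ≠ 0)
    (hfS : ∀ i, S.T (u i / u i1) (f i / f i1)) {x' : Fin (n + 1) → E} (hx : ∀ j, S.T (x j) (x' j))
    (hF' : MvPolynomial.aeval x' F ≠ 0) (hB' : MvPolynomial.aeval f B ≠ 0) (hx' : x' ≠ 0)
    (P : Place K E) (hP : P.ord (MvPolynomial.aeval f B) = b * pord P f) :
    P.ord (MvPolynomial.aeval x' F) ≤ d * pord P x' := by
  obtain ⟨j, hj, hjo⟩ := exists_pord P (Function.ne_iff.1 hx')
  obtain ⟨r, Q, hQ, hreg⟩ := hreg j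
  have hf0 : f ≠ 0 := fun h => hf1 (congrFun h i1)
  -- the relation
  have h1 : x j ^ d * MvPolynomial.aeval (fun i => u i / u i1) B ^ r =
      MvPolynomial.aeval (fun i => u i / u i1) Q * MvPolynomial.aeval x F := by
    rw [aeval_div' hB hi1, aeval_div' hQ hi1, div_mul_eq_mul_div, div_eq_iff hF0] at hreg
    have h2 : (u i1 ^ (r * b)) ≠ 0 := pow_ne_zero _ hi1
    apply mul_left_cancel₀ h2
    rw [mul_comm r b, pow_mul] at hreg ⊢
    linear_combination hreg
  have h2 : x' j ^ d * MvPolynomial.aeval (fun i => f i / f i1) B ^ r =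
      MvPolynomial.aeval (fun i => f i / f i1) Q * MvPolynomial.aeval x' F := by
    have h3 := S.mul (S.pow (hx j) d) (S.pow (sp_val S hfS B) r)
    have h4 := S.mul (sp_val S hfS Q) (sp_val S hx F)
    rw [h1] at h3
    exact S.ext h3 h4
  have h3 : x' j ^ d * MvPolynomial.aeval f B ^ r =
      MvPolynomial.aeval f Q * MvPolynomial.aeval x' F := by
    rw [aeval_div' hB hf1, aeval_div' hQ hf1, mul_pow, ← pow_mul, mul_comm r b]
    linear_combination (f i1 ^ (b * r)) * h2
  have h4 : x' j ^ d * MvPolynomial.aeval f B ^ r ≠ 0 :=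
    mul_ne_zero (pow_ne_zero _ hj) (pow_ne_zero _ hB')
  have h5 : MvPolynomial.aeval f Q ≠ 0 := by
    intro h
    rw [h3, h, zero_mul] at h4
    exact h4 rfl
  have h6 := congrArg P.ord h3
  rw [P.ord_mul (pow_ne_zero _ hj) (pow_ne_zero _ hB'), P.ord_pow, P.ord_pow, P.ord_mul h5 hF',
    hP, hjo] at h6
  have h7 := form_ord P hQ hf0 h5
  push_cast at h7
  have h8 : (r : ℤ) * (b * pord P f) = r * b * pord P f := by ring
  rw [h8] at h6
  linarith

/-- **Linear degree bounds**, for a finite family of morphisms. -/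
theorem fam_bound (hu : u ≠ 0) (hgen : coords K u = ⊤) (hB : B.IsHomogeneous b)
    {J : Type} [Finite J] (X : J → RamifiedPair k K)
    (z : ∀ j, Fin ((X j).n + 1) ⊕ (X j).W → L) (hz : ∀ j, MorphismTo (X j) u B b (z j))
    (ci : ∀ j, Fin ((X j).n + 1))
    (hh : ∀ t : L, t ∈ aclo K (Set.range fun j => z j (Sum.inl (ci j)))) :
    LinearBound u B b := by
  classical
  have := Fintype.ofFinite J
  obtain ⟨i1, hi1'⟩ := Function.ne_iff.1 hu
  have hi1 : u i1 ≠ 0 := hi1'
  obtain ⟨vv, hvv⟩ : ∃ vv : J → L, vv = fun j => z j (Sum.inl (ci j)) := ⟨_, rfl⟩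
  rw [← hvv] at hh
  choose Bd hBd using fun j => curve_X (X j)
  -- the field of the values
  obtain ⟨K1, hK1⟩ : ∃ K1 : IntermediateField K L, K1 = adjoin K (Set.range vv) := ⟨_, rfl⟩
  have hvK : ∀ j, vv j ∈ K1 := fun j => by rw [hK1]; exact subset_adjoin _ _ ⟨j, rfl⟩
  have halg : Algebra.IsAlgebraic K1 L := by
    constructor
    intro t
    rw [hK1, ← mem_aclo]
    exact hh t
  obtain ⟨p, hp⟩ : ∃ p, p = Fintype.card J := ⟨_, rfl⟩
  let e : Fin p ≃ J := (Fintype.equivFinOfCardEq hp.symm).symm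
  let y : Fin (p + 1) → K1 := Fin.cons 1 fun i => ⟨vv (e i), hvK _⟩
  have hy0 : y 0 = 1 := rfl
  have hys : ∀ i : Fin p, ((y i.succ : K1) : L) = vv (e i) := fun i => rfl
  have hygen : coords K y = ⊤ := by
    rw [eq_top_iff]
    rintro ⟨t, ht⟩ -
    have h1 : adjoin K (Set.range vv) ≤ (coords K y).map K1.val := by
      rw [adjoin_le_iff]
      rintro _ ⟨j, rfl⟩
      refine ⟨y (e.symm j).succ, ?_, ?_⟩
      · unfold coords
        refine subset_adjoin _ _ ⟨(e.symm j).succ, 0, ?_, ?_⟩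
        · rw [hy0]
          exact one_ne_zero
        · rw [hy0, div_one]
      · change ((y (e.symm j).succ : K1) : L) = vv j
        rw [hys, Equiv.apply_symm_apply]
    obtain ⟨t', ht', h2⟩ := h1 (hK1 ▸ ht)
    have h3 : t' = ⟨t, ht⟩ := Subtype.ext h2
    rw [← h3]
    exact ht'
  obtain ⟨Θ2, Ca, hΘ2, halgs⟩ := alg_hgt (k := K) (K := K1) (K' := L) hygen (i0 := 0)
    (by rw [hy0]; exact one_ne_zero) (fun m : Fin (N + 1) => u m / u i1)
  have hfinz : (⋃ j, Set.range (z j)).Finite := by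
    refine Set.finite_iUnion fun j => ?_
    have := (X j).finW
    exact Set.finite_range _
  have hfinF : (⋃ j, Set.range fun a => (MvPolynomial.aeval (fun i => z j (Sum.inl i))
      ((X j).F a))⁻¹).Finite := by
    refine Set.finite_iUnion fun j => ?_
    have := (X j).fin
    exact Set.finite_range _
  obtain ⟨H, hH, hspread⟩ := spread1 (k := K) (L := L) (adjoin_norm hgen hi1)
    (Θ := (algebraMap K1 L '' Θ2) ∪ ((⋃ j, Set.range (z j)) ∪
      ⋃ j, Set.range fun a => (MvPolynomial.aeval (fun i => z j (Sum.inl i)) ((X j).F a))⁻¹))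
    ((hΘ2.image _).union (hfinz.union hfinF))
  refine ⟨MvPolynomial.X i1 * Pool.Agent.TH466.QG.hz i1 H, ?_, ?_,
    (N + 1) * (Ca * (∑ j, Bd j)), ?_⟩
  · obtain ⟨d, hd⟩ := hz_form i1 H
    exact ⟨1 + d, (MvPolynomial.isHomogeneous_X K i1).mul hd⟩
  · rw [map_mul, MvPolynomial.aeval_X]
    refine mul_ne_zero hi1 ?_
    change val u _ ≠ 0
    rw [val_hz H hi1]
    exact mul_ne_zero (pow_ne_zero _ hi1) hH
  intro E _ _ _ S f hf hfR
  obtain ⟨hfM, hfB, hfS⟩ := hf
  rw [map_mul, MvPolynomial.aeval_X] at hfR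
  have hf1 : f i1 ≠ 0 := left_ne_zero_of_mul hfR
  have hfH : MvPolynomial.aeval (fun i => f i / f i1) H ≠ 0 := by
    have h1 : val f (Pool.Agent.TH466.QG.hz i1 H) ≠ 0 := right_ne_zero_of_mul hfR
    rw [val_hz H hf1] at h1
    exact right_ne_zero_of_mul h1
  have hsp : ∀ G : MvPolynomial (Fin (N + 1)) K,
      MvPolynomial.aeval (fun i => u i / u i1) G = 0 →
      MvPolynomial.aeval (fun i => f i / f i1) G = 0 := by
    intro G hG
    have h1 : val u (Pool.Agent.TH466.QG.hz i1 G) = 0 := by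
      rw [val_hz G hi1, hG, mul_zero]
    have h2 := hfM.2 _ (hz_form i1 G) h1
    rw [val_hz G hf1] at h2
    exact (mul_eq_zero.1 h2).resolve_left (pow_ne_zero _ hf1)
  obtain ⟨Sp', hSx, hSΘ⟩ := hspread E (fun i => f i / f i1) hsp hfH
  obtain ⟨χ, hχ⟩ : ∃ χ : ℤ, χ = max (canDeg K E + S.card) 0 := ⟨_, rfl⟩
  have hχ0 : 0 ≤ χ := by rw [hχ]; exact le_max_right _ _
  rw [← hχ]
  -- the specializations of the values
  have key : ∀ j, ∃ v' : E, Sp'.T (vv j) v' ∧ hgt K v' ≤ (Bd j : ℕ) * χ := by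
    intro j
    choose z' hz' using fun v => hSΘ (z j v)
      (Or.inr (Or.inl (Set.mem_iUnion.2 ⟨j, v, rfl⟩)))
    obtain ⟨⟨c, hc⟩, hzG⟩ := (hz j).1
    have hc' : z' (Sum.inl c) = 1 := by
      have h1 := hz' (Sum.inl c)
      rw [hc] at h1
      exact Sp'.ext h1 Sp'.one
    have hx'0 : (fun i => z' (Sum.inl i)) ≠ 0 := by
      intro h
      have h1 := congrFun h c
      simp only [hc'] at h1
      exact one_ne_zero h1
    have hzG' : ∀ i, MvPolynomial.aeval z' ((X j).G i) = 0 := fun i =>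
      Sp'.eq_zero (sp_val Sp' hz' _) (hzG i)
    have h1 := hBd j E S z' ⟨⟨c, hc'⟩, hzG'⟩ (fun a ha P hP => by
      obtain ⟨hF0, hreg⟩ := (hz j).2 a ha
      have hF' : MvPolynomial.aeval (fun i => z' (Sum.inl i)) ((X j).F a) ≠ 0 := by
        refine Sp'.ne_zero (x := MvPolynomial.aeval (fun i => z j (Sum.inl i)) ((X j).F a))
          (sp_val Sp' (fun i => hz' (Sum.inl i)) _) ?_ hF0
        exact hSΘ _ (Or.inr (Or.inr (Set.mem_iUnion.2 ⟨j, a, rfl⟩)))
      exact spec_ord hB hi1 hF0 hreg Sp' hf1 hSx (fun i => hz' (Sum.inl i)) hF' hfB hx'0 P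
        (hfS P hP))
    rw [← hχ] at h1
    refine ⟨z' (Sum.inl (ci j)), by rw [hvv]; exact hz' _, ?_⟩
    by_cases hj : z' (Sum.inl (ci j)) = 0
    · rw [hj, hgt_zero]
      exact mul_nonneg (by positivity) hχ0
    · have h4 := Pool.Agent.W603.CX.hgt_le_pht (k := K) (fun i => z' (Sum.inl i)) (j := ci j) hj
        (l := c) (by rw [hc']; exact one_ne_zero)
      simp only [hc', div_one] at h4
      exact h4.trans h1
  choose v' hv'S hv'h using key
  obtain ⟨y', hy'⟩ : ∃ y' : Fin (p + 1) → E, y' = Fin.cons 1 fun i => v' (e i) := ⟨_, rfl⟩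
  have hy'0 : y' 0 = 1 := by rw [hy']; rfl
  have hy's : ∀ i : Fin p, y' i.succ = v' (e i) := fun i => by rw [hy']; rfl
  have hyS : ∀ i, Sp'.T (algebraMap K1 L (y i)) (y' i) := by
    intro i
    refine Fin.cases ?_ (fun i => ?_) i
    · rw [hy0, hy'0, map_one]
      exact Sp'.one
    · rw [hy's]
      exact hv'S (e i)
  have hpht : pht K y' ≤ (∑ j, Bd j : ℕ) * χ := by
    refine (pht_le (k := K) y' (l := 0) (by rw [hy'0]; exact one_ne_zero)).trans ?_
    rw [hy'0, Fin.sum_univ_succ, hy'0, div_one]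
    have h0 : hgt K (1 : E) = 0 := hgt_one
    rw [h0, zero_add]
    have h1 : ∑ i : Fin p, hgt K (y' i.succ / 1) = ∑ j, hgt K (v' j) := by
      rw [← Equiv.sum_comp e]
      exact Finset.sum_congr rfl fun i _ => by rw [div_one, hy's]
    rw [h1, Nat.cast_sum, Finset.sum_mul]
    exact Finset.sum_le_sum fun j _ => hv'h j
  have h2 : ∀ m, hgt K (f m / f i1) ≤ Ca * pht K y' := fun m =>
    halgs E Sp' (fun ϑ hϑ => hSΘ _ (Or.inl ⟨ϑ, hϑ, rfl⟩)) y' hyS _ hSx m
  have h3 : pht K f ≤ (N + 1) * (Ca * pht K y') := by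
    refine (pht_le f hf1).trans ?_
    refine (Finset.sum_le_sum fun j _ => h2 j).trans (le_of_eq ?_)
    rw [Finset.sum_const, nsmul_eq_mul, Finset.card_univ, Fintype.card_fin]
    push_cast
    ring
  refine h3.trans ?_
  have h8 : (Ca : ℤ) * pht K y' ≤ Ca * ((∑ j, Bd j : ℕ) * χ) :=
    mul_le_mul_of_nonneg_left hpht (Nat.cast_nonneg _)
  have h9 := mul_le_mul_of_nonneg_left h8 (by positivity : (0 : ℤ) ≤ (N : ℤ) + 1)
  refine h9.trans (le_of_eq ?_)
  push_cast
  ring

/-- the values of all morphisms from `M°` to ramified pairs: the ratios `x_i / x_c` -/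
def Values (k : Type) [Field k] [Algebra k K] (u : Fin (N + 1) → L)
    (B : MvPolynomial (Fin (N + 1)) K) (b : ℕ) : Set L :=
  {t | ∃ (X : RamifiedPair k K) (z : Fin (X.n + 1) ⊕ X.W → L), MorphismTo X u B b z ∧
    ∃ i, t = z (Sum.inl i)}

/-- **Linear degree bounds**, if all functions are algebraic over the values. -/
theorem joint_bound (hu : u ≠ 0) (hgen : coords K u = ⊤) (hB : B.IsHomogeneous b)
    (hh : ∀ t : L, t ∈ aclo K (Values k u B b)) : LinearBound u B b := by
  classical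
  obtain ⟨i1, hi1'⟩ := Function.ne_iff.1 hu
  have hi1 : u i1 ≠ 0 := hi1'
  choose T hTV hT using fun m : Fin (N + 1) =>
    Pool.Agent.N111.GG.aclo_finite (hh (u m / u i1))
  let W : Set L := ⋃ m, (T m : Set L)
  have hWf : W.Finite := Set.finite_iUnion fun m => (T m).finite_toSet
  have hWF : Finite W := hWf
  have hW : ∀ v : W, ∃ (X : RamifiedPair k K) (z : Fin (X.n + 1) ⊕ X.W → L),
      MorphismTo X u B b z ∧ ∃ i, (v : L) = z (Sum.inl i) := by
    rintro ⟨v, hv⟩
    obtain ⟨m, hm⟩ := Set.mem_iUnion.1 hv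
    exact hTV m hm
  choose X z hz ci hzv using hW
  refine fam_bound (k := k) hu hgen hB X z hz ci fun t => ?_
  have h3 : (⊤ : IntermediateField K L) ≤ aclo K (Set.range fun v => z v (Sum.inl (ci v))) := by
    rw [← adjoin_norm hgen hi1, adjoin_le_iff]
    rintro _ ⟨m, rfl⟩
    refine aclo_mono ?_ (hT m)
    intro v hv
    exact ⟨⟨v, Set.mem_iUnion.2 ⟨m, hv⟩⟩, (hzv ⟨v, Set.mem_iUnion.2 ⟨m, hv⟩⟩).symm⟩
  exact h3 (mem_top (x := t))

end

end Pool.Agent.J4.H14.RP
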