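import Pool.Agent.J4.H14.RP.Bound

/-!
Varieties with generically finite maps to ramified pairs: (log) general type; the projective case.
-/

set_option autoImplicit false
set_option linter.unusedSectionVars false
set_option linter.overlappingInstances false

open FF IntermediateField

namespace Pool.Agent.J4.H14.RP

open Pool.Agent.TH466.QG Pool.Agent.N111.FT Pool.Agent.N111.GI Pool.Agent.W603.LV
open Pool.Agent.N126.RC (curve_cover generic_closure general_coverW alg_coords)
open Pool.Agent.W602.GT (val coords IsForm LogGeneralType GeneralType)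
open Pool.Agent.W602.RG (PseudoGeomHyp)
open Pool.Agent.W603.PV (pht pht_le pord pord_le exists_pord hgt_algebraic)
open Pool.Agent.Y216 (OnVar CurveBound)

variable {k K L : Type} [Field k] [Field K] [IsAlgClosed K] [CharZero K] [Algebra k K] [Field L]
  [Algebra K L] {N : ℕ} {u : Fin (N + 1) → L} {B : MvPolynomial (Fin (N + 1)) K} {b : ℕ}

/-- log general type with a larger boundary -/
theorem lgt_mono {w : ℕ} {P Q : Place K L → Prop} (h : ∀ p, P p → Q p)
    (hP : LogGeneralType K L w P) : LogGeneralType K L w Q := by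
  obtain ⟨h1, M, hM, ω, h2, h3, h4, h5⟩ := hP
  exact ⟨h1, M, hM, ω, h2, h3, fun p hp hq j => h4 p hp (fun hp' => hq (h p hp')) j, h5⟩

/-- The ramified pair: everything generically finite and proper over the complement of the boundary
is of log general type. -/
theorem lgt_X (X : RamifiedPair k K) {w : ℕ} (hw : 0 < w) (htr : Algebra.trdeg K L = w)
    {z : Fin (X.n + 1) ⊕ X.W → L} (hz : X.Point z)
    (hbd : ∀ a ∈ X.boundary, MvPolynomial.aeval (fun j => z (Sum.inl j)) (X.F a) ≠ 0)
    (halg : Algebra.IsAlgebraic (IntermediateField.adjoin K (Set.range z)) L) :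
    LogGeneralType K L w fun Q : Place K L => ∃ a ∈ X.boundary,
      X.d a * pord Q (fun j => z (Sum.inl j)) <
        Q.ord (MvPolynomial.aeval (fun j => z (Sum.inl j)) (X.F a)) := by
  obtain ⟨⟨c, hc⟩, hz⟩ := hz
  refine lgt_mono ?_ (general_coverW X.C X.large X.V X.V_form X.V_dim (generic_closure X.generic)
    X.e X.G X.G_form X.finite X.lies_over X.ramified hw htr z c hc hz halg
    (fun a ha hqa => hbd a ⟨ha, hqa⟩))
  rintro Q ⟨a, ha, hqa, h⟩
  exact ⟨a, ⟨ha, hqa⟩, h⟩

/-- the boundary of `M°` contains the inverse image of the boundary of `X` -/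
theorem bd_sub (hu : u ≠ 0) (hB : B.IsHomogeneous b) (hBu : MvPolynomial.aeval u B ≠ 0)
    {n d : ℕ} {F : MvPolynomial (Fin (n + 1)) K} {x : Fin (n + 1) → L} (hx : x ≠ 0)
    (hF0 : MvPolynomial.aeval x F ≠ 0)
    (hreg : ∀ j, RegularOn u B b (x j ^ d / MvPolynomial.aeval x F)) (Q : Place K L)
    (hQ : d * pord Q x < Q.ord (MvPolynomial.aeval x F)) :
    b * pord Q u < Q.ord (MvPolynomial.aeval u B) := by
  by_contra hcon
  have hle := form_ord Q hB hu hBu
  have heq : Q.ord (MvPolynomial.aeval u B) = b * pord Q u := le_antisymm (not_lt.1 hcon) hle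
  obtain ⟨j, hj, hjo⟩ := exists_pord Q (Function.ne_iff.1 hx)
  obtain ⟨r, P, hP, hreg⟩ := hreg j
  have h3 : x j ^ d * MvPolynomial.aeval u B ^ r =
      MvPolynomial.aeval u P * MvPolynomial.aeval x F := by
    rw [div_mul_eq_mul_div, div_eq_iff hF0] at hreg
    exact hreg
  have h4 : x j ^ d * MvPolynomial.aeval u B ^ r ≠ 0 :=
    mul_ne_zero (pow_ne_zero _ hj) (pow_ne_zero _ hBu)
  have h5 : MvPolynomial.aeval u P ≠ 0 := by
    intro h
    rw [h3, h, zero_mul] at h4
    exact h4 rfl
  have h6 := congrArg Q.ord h3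
  rw [Q.ord_mul (pow_ne_zero _ hj) (pow_ne_zero _ hBu), Q.ord_pow, Q.ord_pow, Q.ord_mul h5 hF0,
    heq, hjo] at h6
  have h7 := form_ord Q hP hu h5
  push_cast at h7
  have h8 : (r : ℤ) * (b * pord Q u) = r * b * pord Q u := by ring
  rw [h8] at h6
  linarith

theorem x_ne {X : RamifiedPair k K} {z : Fin (X.n + 1) ⊕ X.W → L} (hz : X.Point z) :
    (fun j => z (Sum.inl j)) ≠ 0 := by
  obtain ⟨⟨c, hc⟩, -⟩ := hz
  intro h
  have h1 := congrFun h c
  simp only [hc] at h1
  exact one_ne_zero h1

/-- Affine varieties with a generically finite morphism to a ramified pair are of log general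
type. -/
theorem lgt_M (hu : u ≠ 0) (hB : B.IsHomogeneous b) (hBu : MvPolynomial.aeval u B ≠ 0)
    (X : RamifiedPair k K) {w : ℕ} (hw : 0 < w) (htr : Algebra.trdeg K L = w)
    {z : Fin (X.n + 1) ⊕ X.W → L} (hz : MorphismTo X u B b z)
    (halg : Algebra.IsAlgebraic (IntermediateField.adjoin K (Set.range z)) L) :
    LogGT u B b w := by
  refine lgt_mono ?_ (lgt_X X hw htr hz.1 (fun a ha => (hz.2 a ha).1) halg)
  rintro Q ⟨a, ha, h⟩
  exact bd_sub hu hB hBu (x_ne hz.1) (hz.2 a ha).1 (hz.2 a ha).2 Q h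

/-- all functions are algebraic over the values of a generically finite map -/
theorem alg_values {X : RamifiedPair k K} {z : Fin (X.n + 1) ⊕ X.W → L} (hz : X.Point z)
    (halg : Algebra.IsAlgebraic (IntermediateField.adjoin K (Set.range z)) L) (t : L) :
    t ∈ aclo K (Set.range fun j => z (Sum.inl j)) := by
  obtain ⟨⟨c, hc⟩, hzG⟩ := hz
  have h1 := alg_coords X.finite z c hc hzG halg
  rw [mem_aclo]
  have h2 := h1.isAlgebraic t
  have h3 : coords K (fun i => z (Sum.inl i)) ≤ adjoin K (Set.range fun j => z (Sum.inl j)) := by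
    unfold Pool.Agent.W602.GT.coords
    rw [adjoin_le_iff]
    rintro _ ⟨i, j, -, rfl⟩
    exact div_mem (subset_adjoin _ _ ⟨i, rfl⟩) (subset_adjoin _ _ ⟨j, rfl⟩)
  exact Pool.Agent.TH145.MF.alg_mono (F1 := (coords K (fun i => z (Sum.inl i))).toSubfield)
    (F2 := (adjoin K (Set.range fun j => z (Sum.inl j))).toSubfield) h3 h2

/-- Linear bounds for affine varieties with a generically finite morphism to a ramified pair. -/
theorem bound_M (hu : u ≠ 0) (hgen : coords K u = ⊤) (hB : B.IsHomogeneous b)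
    (X : RamifiedPair k K) {z : Fin (X.n + 1) ⊕ X.W → L} (hz : MorphismTo X u B b z)
    (halg : Algebra.IsAlgebraic (IntermediateField.adjoin K (Set.range z)) L) :
    LinearBound u B b :=
  fam_bound (J := Fin (X.n + 1)) hu hgen hB (fun _ => X) (fun _ => z) (fun _ => hz) (fun j => j)
    (alg_values hz.1 halg)

/-- the projective case -/
theorem curve_of_linear (h : LinearBound u (1 : MvPolynomial (Fin (N + 1)) K) 0) :
    CurveBound K u := by
  obtain ⟨G, hG, hGu, A, hA⟩ := h
  refine ⟨G, hG, hGu, A, fun E _ _ _ f hf hfG => ?_⟩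
  have h1 := hA E ∅ f ⟨hf, by rw [map_one]; exact one_ne_zero, fun P _ => by
    rw [map_one, P.ord_one]; simp⟩ hfG
  simpa using h1

theorem morphism_proj {X : RamifiedPair k K} (hX : X.boundary = ∅)
    {z : Fin (X.n + 1) ⊕ X.W → L} (hz : X.Point z) :
    MorphismTo X u (1 : MvPolynomial (Fin (N + 1)) K) 0 z :=
  ⟨hz, fun a ha => by
    rw [hX] at ha
    exact absurd ha (Set.notMem_empty a)⟩

theorem gt_proj (X : RamifiedPair k K) (hX : X.boundary = ∅) {w : ℕ} (hw : 0 < w)
    (htr : Algebra.trdeg K L = w) {z : Fin (X.n + 1) ⊕ X.W → L} (hz : X.Point z)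
    (halg : Algebra.IsAlgebraic (IntermediateField.adjoin K (Set.range z)) L) :
    GeneralType K L w := by
  obtain ⟨h1, M, hM, ω, h2, h3, h4, h5⟩ := lgt_X X hw htr hz (fun a ha => by
    rw [hX] at ha
    exact absurd ha (Set.notMem_empty a)) halg
  refine ⟨h1, M, hM, ω, h2, fun P hP j => h4 P hP ?_ j, h5⟩
  rintro ⟨a, ha, -⟩
  rw [hX] at ha
  exact absurd ha (Set.notMem_empty a)

/-- the values of all rational maps to ramified pairs without boundary -/
def RatValues (k K L : Type) [Field k] [Field K] [Algebra k K] [Field L] [Algebra K L] : Set L :=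
  {t | ∃ (X : RamifiedPair k K) (z : Fin (X.n + 1) ⊕ X.W → L), X.boundary = ∅ ∧ X.Point z ∧
    ∃ i, t = z (Sum.inl i)}

theorem joint_proj (hu : u ≠ 0) (hgen : coords K u = ⊤)
    (hh : ∀ t : L, t ∈ aclo K (RatValues k K L)) : CurveBound K u := by
  refine curve_of_linear (joint_bound (k := k) hu hgen (MvPolynomial.isHomogeneous_one _ _) ?_)
  intro t
  refine aclo_mono ?_ (hh t)
  rintro _ ⟨X, z, hX, hz, i, rfl⟩
  exact ⟨X, z, morphism_proj hX hz, i, rfl⟩

/-- the rational maps descend to the field of the functions which are algebraic over the values -/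
theorem descend (z : aclo K (RatValues k K L)) :
    z ∈ aclo K (RatValues k K (aclo K (RatValues k K L))) := by
  classical
  obtain ⟨L₀, hL₀⟩ : ∃ L₀, L₀ = aclo K (RatValues k K L) := ⟨_, rfl⟩
  have hcl : ∀ t : L, IsAlgebraic L₀ t → t ∈ L₀ := by
    rw [hL₀]
    exact fun t ht => aclo_closed ht
  have hsub : RatValues k K L ⊆ (L₀ : Set L) := by
    rw [hL₀]
    exact subset_aclo _
  revert z
  rw [← hL₀]
  intro z
  have key : RatValues k K L ⊆ L₀.val '' (RatValues k K L₀) := by
    rintro _ ⟨X, z, hX, ⟨⟨c, hc⟩, hz⟩, i, rfl⟩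
    have hx : ∀ i, z (Sum.inl i) ∈ L₀ := fun i => hsub ⟨X, z, hX, ⟨⟨c, hc⟩, hz⟩, i, rfl⟩
    have hall : ∀ v, z v ∈ L₀ := by
      rintro (i | w)
      · exact hx i
      · apply hcl
        obtain ⟨p, hp, hpG⟩ := X.finite w
        let ψ : MvPolynomial (Fin (X.n + 1)) K →ₐ[K] L₀ :=
          MvPolynomial.aeval fun i => ⟨z (Sum.inl i), hx i⟩
        have h1 : ((algebraMap L₀ L).comp ψ.toRingHom) =
            (MvPolynomial.aeval fun i => z (Sum.inl i) :
              MvPolynomial (Fin (X.n + 1)) K →ₐ[K] L).toRingHom := by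
          apply MvPolynomial.ringHom_ext
          · intro r
            simp [ψ]
          · intro i
            simp [ψ]
        refine ⟨p.map ψ.toRingHom, (hp.map _).ne_zero, ?_⟩
        have h2 := Pool.Agent.N126.RC.mon_point p hpG hz
        rw [← h1, ← Polynomial.map_map, Polynomial.eval_map] at h2
        exact h2
    refine ⟨⟨z (Sum.inl i), hx i⟩, ⟨X, fun v => ⟨z v, hall v⟩, hX, ⟨⟨c, Subtype.ext hc⟩,
      fun i => ?_⟩, i, rfl⟩, rfl⟩
    apply (algebraMap L₀ L).injective
    rw [map_zero, ← MvPolynomial.aeval_algebraMap_apply]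
    exact hz i
  have h1 : (z : L) ∈ aclo K (L₀.val '' (RatValues k K L₀)) := by
    refine aclo_mono key ?_
    rw [← hL₀]
    exact z.2
  exact (map_mem_aclo_iff L₀.val _ _).1 h1

end Pool.Agent.J4.H14.RP
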