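import Pool.Agent.N126.RC.FinalW
import Pool.Agent.Y216.Point

/-!
Ramified coverings of arbitrary varieties over generic hypersurface sections, some of which may be
removed, and the maps to them.
-/

set_option autoImplicit false

namespace Pool.Agent.J4.H14.RP

open MvPolynomial FF Pool.Agent.N126.RC
open Pool.Agent.TH145.MG (DimLE)
open Pool.Agent.W603.LV (canDeg)
open Pool.Agent.W603.PV (pord pht)
open Pool.Agent.W602.GT (IsForm LogGeneralType)
open Pool.Agent.Y216 (OnVar)

/-- A *ramified pair* over `K` (a field which contains `k`; `k'` is the algebraic closure of `k` in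
`K`).

* `V` is a closed subset of the projective `n`-space over `k'`, of dimension at most `m`;
* the `F a` are generic forms of degrees `d a`: the ratios of their coefficients are algebraically
  independent over `k`;
* `X = {G = 0}` is a closed subset of the weighted projective space with the coordinates `x_0, …, x_n`
  of weight `1` and `u_w` of weight `e w`, with a finite morphism `(x, u) ↦ x` to `V` and to the
  hypersurfaces `F a = 0`, `a ∈ C` (`C` can be empty);
* for the `a` not in `C` with `q a ≥ 1`, this morphism is ramified of order at least `q a` over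
  `F a = 0`; the boundary consists of the hypersurfaces `F a = 0` with `a ∉ C` and `q a = 0`;
* the sum `T` of the `d a + 1`, `a ∈ C`, the `d a (1 - 1 / q a)`, for `a ∉ C` with `q a ≥ 1`, and the
  `d a`, for the boundary, is larger than `2 m`. -/
structure RamifiedPair (k K : Type) [Field k] [Field K] [Algebra k K] where
  /-- the dimension of the ambient projective space -/
  n : ℕ
  /-- the bound for the dimension of `V` -/
  m : ℕ
  /-- the equations of `V` -/
  V : Set (MvPolynomial (Fin (n + 1)) (algebraicClosure k K))
  V_form : ∀ f ∈ V, ∃ e, f.IsHomogeneous e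
  V_dim : DimLE (algebraicClosure k K) V m
  /-- the index set of the generic forms -/
  A : Type
  [fin : Fintype A]
  [dec : DecidableEq A]
  /-- the degrees -/
  d : A → ℕ
  /-- the generic forms -/
  F : A → MvPolynomial (Fin (n + 1)) K
  generic : Generic k d F
  /-- the hypersurfaces which contain the image of `X` -/
  C : Finset A
  /-- the orders of ramification; `0` for the boundary -/
  q : A → ℕ
  /-- the index set of the further coordinates -/
  W : Type
  [finW : Finite W]
  /-- the weights of the further coordinates -/
  e : W → ℕ
  /-- the index set of the equations of `X` -/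
  ι : Type
  /-- the equations of `X` -/
  G : ι → MvPolynomial (Fin (n + 1) ⊕ W) K
  G_form : ∀ i, ∃ c, (G i).IsWeightedHomogeneous (wts e) c
  finite : FiniteOver G
  lies_over : Over V F C G
  ramified : ∀ a, a ∉ C → q a ≠ 0 → RamifiedOver G (F a) (q a)
  large : (2 * m : ℚ) < ∑ a ∈ C, ((d a : ℚ) + 1) + ∑ a ∈ Cᶜ, (d a : ℚ) * (1 - 1 / q a)

attribute [instance] RamifiedPair.fin RamifiedPair.dec RamifiedPair.finW

namespace RamifiedPair

variable {k K : Type} [Field k] [Field K] [Algebra k K] (X : RamifiedPair k K)

/-- The number `T` of the ramified pair. -/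
def total : ℚ := ∑ a ∈ X.C, ((X.d a : ℚ) + 1) + ∑ a ∈ X.Cᶜ, (X.d a : ℚ) * (1 - 1 / X.q a)

/-- the index set of the boundary -/
def boundary : Set X.A := {a | a ∉ X.C ∧ X.q a = 0}

variable {X} in
/-- The coordinates `z`, elements of an extension `L` of `K`, normalised by `z (inl c) = 1` for some
`c`, are those of a point of the projective variety `X`. -/
def Point {L : Type} [Field L] [Algebra K L] (z : Fin (X.n + 1) ⊕ X.W → L) : Prop :=
  (∃ c, z (Sum.inl c) = 1) ∧ ∀ i, aeval z (X.G i) = 0

end RamifiedPair

section

variable {K : Type} [Field K] {L : Type} [Field L] [Algebra K L] {N : ℕ}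

/-- Let `M` be the projective variety with generic point `u` and let `M°` be the complement of the
hypersurface `B = 0` of degree `b` in `M`. The rational function `g` is regular on `M°`: it is the
quotient of a form of degree `r b` and of `B ^ r`. -/
def RegularOn (u : Fin (N + 1) → L) (B : MvPolynomial (Fin (N + 1)) K) (b : ℕ) (g : L) : Prop :=
  ∃ (r : ℕ) (P : MvPolynomial (Fin (N + 1)) K), P.IsHomogeneous (r * b) ∧
    g * aeval u B ^ r = aeval u P

/-- The rational map from `M` to `X` given by `z` is a morphism from `M°` to the complement `X°` of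
the boundary: the functions `x_j ^ d_a / F_a (x)` are regular on `M°` for all hypersurfaces
`F a = 0` of the boundary. (If there is no boundary, `z` can be any rational map to `X`.) -/
def MorphismTo {k : Type} [Field k] [Algebra k K] (X : RamifiedPair k K) (u : Fin (N + 1) → L)
    (B : MvPolynomial (Fin (N + 1)) K) (b : ℕ) (z : Fin (X.n + 1) ⊕ X.W → L) : Prop :=
  X.Point z ∧ ∀ a ∈ X.boundary, aeval (fun j => z (Sum.inl j)) (X.F a) ≠ 0 ∧
    ∀ j, RegularOn u B b (z (Sum.inl j) ^ X.d a / aeval (fun j => z (Sum.inl j)) (X.F a))

/-- The smooth projective curve with the function field `E`, without the points in the finite set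
`S`, is mapped by `f` to the complement `M°` of `B = 0` in the projective variety with generic
point `u`. -/
def CurveTo (u : Fin (N + 1) → L) (B : MvPolynomial (Fin (N + 1)) K) (b : ℕ) {E : Type} [Field E]
    [Algebra K E] (S : Finset (Place K E)) (f : Fin (N + 1) → E) : Prop :=
  OnVar K u f ∧ aeval f B ≠ 0 ∧ ∀ P ∉ S, P.ord (aeval f B) = b * pord P f

/-- The degrees of the morphisms from affine curves to `M°` are bounded linearly, outside of a proper
closed subset `G = 0`: `deg f ≤ A max (2 g - 2 + s, 0)` for smooth projective curves of genus `g`
without `s` points. -/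
def LinearBound (u : Fin (N + 1) → L) (B : MvPolynomial (Fin (N + 1)) K) (b : ℕ) : Prop :=
  ∃ G : MvPolynomial (Fin (N + 1)) K, IsForm G ∧ aeval u G ≠ 0 ∧ ∃ A : ℕ,
    ∀ (E : Type) [Field E] [Algebra K E] [IsFF K E] (S : Finset (Place K E))
      (f : Fin (N + 1) → E), CurveTo u B b S f → aeval f G ≠ 0 →
      pht K f ≤ A * max (canDeg K E + S.card) 0

/-- The affine variety `M°` is of log general type; `w` is its dimension. The boundary consists of
the prime divisors (on all models) with centre in `B = 0`. -/
def LogGT (u : Fin (N + 1) → L) (B : MvPolynomial (Fin (N + 1)) K) (b w : ℕ) : Prop :=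
  LogGeneralType K L w fun Q : Place K L => b * pord Q u < Q.ord (aeval u B)

end

end Pool.Agent.J4.H14.RP
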